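import Pool.Agent.Helper50.NW.Prec

/-!
# N5: the cube trick
-/

set_option autoImplicit false

namespace Pool.Agent.Helper50.NW

open Set Filter Topology Cardinal MeasureTheory

universe u

variable {E : Type u} [AddCommGroup E] [Module ℝ E] [TopologicalSpace E]
  [IsTopologicalAddGroup E] [ContinuousSMul ℝ E] [LocallyConvexSpace ℝ E] [T2Space E]

theorem Cube.ext_Icc : extremePoints ℝ (Set.Icc (0 : ℝ) 1) = {0, 1} :=
  Set.extremePoints_Icc zero_le_one

/-- N5: cube trick -/
theorem cube_trick {K : Set E} (hK : IsCompact K) (hne : K.Nonempty) {κ : Cardinal.{u}}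
    (hκ : ℵ₀ ≤ κ) (h : netWeight (extremePoints ℝ K) ≤ κ) (ι : Type u) (hι : #ι = κ) :
    netWeight (extremePoints ℝ (K ×ˢ (Set.univ.pi fun _ : ι => Set.Icc (0 : ℝ) 1))) = κ ∧
      netWeight K ≤ netWeight (K ×ˢ (Set.univ.pi fun _ : ι => Set.Icc (0 : ℝ) 1)) := by
  classical
  have hext : extremePoints ℝ (K ×ˢ (Set.univ.pi fun _ : ι => Set.Icc (0 : ℝ) 1))
      = extremePoints ℝ K ×ˢ (Set.univ.pi fun _ : ι => ({0, 1} : Set ℝ)) := by
    rw [extremePoints_prod, extremePoints_pi]
    simp only [Cube.ext_Icc]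
  constructor
  · rw [hext]
    apply le_antisymm
    · obtain ⟨𝒩, h𝒩, hc⟩ := exists_network (extremePoints ℝ K)
      let B : 𝒩 × List (ι × Bool) → Set (E × (ι → ℝ)) := fun q =>
        {p | p ∈ extremePoints ℝ K ×ˢ (Set.univ.pi fun _ : ι => ({0, 1} : Set ℝ)) ∧
          p.1 ∈ (q.1 : Set E) ∧ ∀ ib ∈ q.2, p.2 ib.1 = if ib.2 then 1 else 0}
      have hnet : IsNetworkOn (extremePoints ℝ K ×ˢ
          (Set.univ.pi fun _ : ι => ({0, 1} : Set ℝ))) (Set.range B) := by
        refine ⟨?_, ?_⟩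
        · rintro _ ⟨q, rfl⟩ p hp
          exact hp.1
        · rintro ⟨e, c⟩ hx U hU hxU
          obtain ⟨V, W, hV, hW, heV, hcW, hVW⟩ := isOpen_prod_iff.1 hU e c hxU
          obtain ⟨N, hN, heN, hNV⟩ := h𝒩.2 e hx.1 V hV heV
          obtain ⟨F, u, hu, huW⟩ := isOpen_pi_iff.1 hW c hcW
          refine ⟨B (⟨N, hN⟩, F.toList.map fun i => (i, decide (c i = 1))), ⟨_, rfl⟩,
            ⟨hx, heN, ?_⟩, ?_⟩
          · intro ib hib
            rw [List.mem_map] at hib
            obtain ⟨i, -, rfl⟩ := hib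
            have hci := hx.2 i (mem_univ i)
            simp only [mem_insert_iff, mem_singleton_iff] at hci
            rcases hci with hci | hci <;> simp [hci]
          · rintro ⟨e', c'⟩ ⟨hp, he', hc'⟩
            refine hVW ⟨hNV he', huW ?_⟩
            intro i hi
            have h1 := hc' (i, decide (c i = 1)) (List.mem_map.2 ⟨i, Finset.mem_toList.2 hi, rfl⟩)
            have hci := hx.2 i (mem_univ i)
            simp only [mem_insert_iff, mem_singleton_iff] at hci
            have h2 : c' i = c i := by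
              rcases hci with hci | hci <;> simpa [hci] using h1
            show c' i ∈ u i
            rw [h2]
            exact (hu i hi).2
      refine (netWeight_le_of_network hnet).trans (sup_le hκ ?_)
      refine Cardinal.mk_range_le.trans ?_
      rw [Cardinal.mk_prod, Cardinal.lift_id, Cardinal.lift_id]
      have h1 : #𝒩 ≤ κ := hc.trans h
      have h2 : #(List (ι × Bool)) ≤ κ := by
        refine (Cardinal.mk_list_le_max _).trans (sup_le hκ ?_)
        have : #(ι × Bool) = #ι * 2 := by simp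
        rw [this, hι]
        calc κ * 2 ≤ κ * κ := mul_le_mul_right ((Cardinal.natCast_lt_aleph0 (n := 2)).le.trans hκ) κ
          _ = κ := Cardinal.mul_eq_self hκ
      calc #𝒩 * #(List (ι × Bool)) ≤ κ * κ := mul_le_mul' h1 h2
        _ = κ := Cardinal.mul_eq_self hκ
    · obtain ⟨𝒩, h𝒩, hc⟩ := exists_network (extremePoints ℝ K ×ˢ
          (Set.univ.pi fun _ : ι => ({0, 1} : Set ℝ)))
      obtain ⟨e, he⟩ := hK.extremePoints_nonempty hne
      have hmem : ∀ i : ι, (e, (Pi.single i (1 : ℝ) : ι → ℝ)) ∈ extremePoints ℝ K ×ˢ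
          (Set.univ.pi fun _ : ι => ({0, 1} : Set ℝ)) := by
        intro i
        refine ⟨he, fun j _ => ?_⟩
        simp only [mem_insert_iff, mem_singleton_iff]
        by_cases hij : j = i
        · subst hij
          right
          simp
        · left
          simp [hij]
      have hopen : ∀ i : ι, IsOpen {p : E × (ι → ℝ) | 1 / 2 < p.2 i} := fun i =>
        isOpen_lt continuous_const ((continuous_apply i).comp continuous_snd)
      have hex : ∀ i : ι, ∃ N ∈ 𝒩, (e, (Pi.single i (1 : ℝ) : ι → ℝ)) ∈ N ∧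
          N ⊆ {p : E × (ι → ℝ) | 1 / 2 < p.2 i} := fun i =>
        h𝒩.2 _ (hmem i) _ (hopen i) (by
          show 1 / 2 < (Pi.single i (1 : ℝ) : ι → ℝ) i
          rw [Pi.single_eq_same]
          norm_num)
      choose N hN hN1 hN2 using hex
      have hinj : Function.Injective (fun i : ι => (⟨N i, hN i⟩ : 𝒩)) := by
        intro i j hij
        simp only [Subtype.mk.injEq] at hij
        have h1 : (e, (Pi.single i (1 : ℝ) : ι → ℝ)) ∈ N j := hij ▸ hN1 i
        have h2 := hN2 j h1
        by_contra hne'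
        have h3 : (1 : ℝ) / 2 < (Pi.single i (1 : ℝ) : ι → ℝ) j := h2
        rw [Pi.single_eq_of_ne (Ne.symm hne')] at h3
        norm_num at h3
      rw [← hι]
      exact (Cardinal.mk_le_of_injective hinj).trans hc
  · obtain ⟨𝒩, h𝒩, hc⟩ := exists_network (K ×ˢ (Set.univ.pi fun _ : ι => Set.Icc (0 : ℝ) 1))
    have hnet : IsNetworkOn K ((fun N : Set (E × (ι → ℝ)) => {x : E | (x, (0 : ι → ℝ)) ∈ N}) '' 𝒩) := by
      refine ⟨?_, ?_⟩
      · rintro _ ⟨N, hN, rfl⟩ x hx
        exact (h𝒩.1 N hN hx).1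
      · intro x hx U hU hxU
        have hx0 : (x, (0 : ι → ℝ)) ∈ K ×ˢ (Set.univ.pi fun _ : ι => Set.Icc (0 : ℝ) 1) :=
          ⟨hx, fun i _ => ⟨le_rfl, zero_le_one⟩⟩
        obtain ⟨N, hN, hxN, hNU⟩ := h𝒩.2 _ hx0 (U ×ˢ Set.univ) (hU.prod isOpen_univ)
          ⟨hxU, mem_univ _⟩
        exact ⟨_, ⟨N, hN, rfl⟩, hxN, fun y hy => (hNU hy).1⟩
    refine (netWeight_le_of_network hnet).trans (sup_le (aleph0_le_netWeight _) ?_)
    exact Cardinal.mk_image_le.trans hc

end Pool.Agent.Helper50.NW
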