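import Pool.Agent.Helper50.NW.Prec

/-!
# P3: under CH, `ℵ₁` is not a measure precaliber
-/

set_option autoImplicit false

namespace Pool.Agent.Helper50.NW

open Set Filter Topology Cardinal MeasureTheory

/-- P3: under CH, `ℵ₁` is not a measure precaliber -/
theorem not_isMeasurePrecaliber_aleph_one (h : (2 : Cardinal.{0}) ^ ℵ₀ = ℵ₁) :
    ¬ IsMeasurePrecaliber (ℵ₁ : Cardinal.{0}) := by
  intro hP
  have hR : #ℝ = ℵ₁ := by rw [Cardinal.mk_real, ← two_power_aleph0, h]
  obtain ⟨r, wo, hr⟩ := Cardinal.exists_ord_eq ℝ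
  -- initial segments are countable
  have hseg : ∀ x : ℝ, {y | r y x}.Countable := by
    intro x
    have h1 : #{y | r y x} < #ℝ := by
      have h2 := Ordinal.typein_lt_type r x
      rw [← hr] at h2
      have h3 := Cardinal.lt_ord.1 h2
      exact h3
    rw [hR] at h1
    rw [← Cardinal.le_aleph0_iff_set_countable]
    have h2 : (ℵ₁ : Cardinal.{0}) = Order.succ ℵ₀ := (Cardinal.succ_aleph0).symm
    rw [h2, Order.lt_succ_iff] at h1
    exact h1
  have hμ : IsProbabilityMeasure (volume.restrict (Set.Icc (0 : ℝ) 1)) := ⟨by simp⟩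
  have hex : ∀ x : ℝ, ∃ K : Set ℝ, K ⊆ Set.Icc (0 : ℝ) 1 \ {y | r y x} ∧ IsCompact K ∧
      0 < volume K := by
    intro x
    have hm : MeasurableSet (Set.Icc (0 : ℝ) 1 \ {y | r y x}) :=
      measurableSet_Icc.diff (hseg x).measurableSet
    have hv : 0 < volume (Set.Icc (0 : ℝ) 1 \ {y | r y x}) := by
      rw [measure_sdiff_null ((hseg x).measure_zero _)]
      simp
    exact hm.exists_lt_isCompact hv
  choose A hA1 hA2 hA3 using hex
  obtain ⟨J, hJ, hfin⟩ := hP ℝ (volume.restrict (Set.Icc (0 : ℝ) 1)) ℝ A hR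
    (fun x => (hA2 x).measurableSet) (fun x => by
      rw [Measure.restrict_apply (hA2 x).measurableSet,
        inter_eq_self_of_subset_left ((hA1 x).trans sdiff_subset)]
      exact (hA3 x).ne')
  have hJne : J.Nonempty := by
    rw [nonempty_iff_ne_empty]
    rintro rfl
    simp at hJ
    exact absurd hJ.symm (Cardinal.aleph_pos 1).ne'
  obtain ⟨x0, hx0⟩ := hJne
  obtain ⟨z, hz⟩ := (hA2 x0).inter_iInter_nonempty (fun x : J => A x)
    (fun x => (hA2 x).isClosed) (fun u => by
      classical
      have h1 := hfin (insert x0 (u.image Subtype.val)) (by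
        intro y hy
        simp only [Finset.coe_insert, Finset.coe_image, mem_insert_iff, mem_image,
          Finset.mem_coe] at hy
        rcases hy with rfl | ⟨w, -, rfl⟩
        · exact hx0
        · exact w.2)
      obtain ⟨z, hz⟩ := nonempty_of_measure_ne_zero h1
      refine ⟨z, ?_, ?_⟩
      · simp only [mem_iInter] at hz
        exact hz x0 (Finset.mem_insert_self _ _)
      · simp only [mem_iInter] at hz ⊢
        intro w hw
        exact hz w (Finset.mem_insert_of_mem (Finset.mem_image_of_mem _ hw)))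
  have hzJ : ∀ x ∈ J, z ∈ A x := fun x hx => by
    have := hz.2
    simp only [mem_iInter] at this
    exact this ⟨x, hx⟩
  have hsub : J ⊆ {y | r y z} ∪ {z} := by
    intro x hx
    rcases trichotomous_of r x z with h1 | h1 | h1
    · exact Or.inl h1
    · exact Or.inr h1
    · exact absurd h1 (hA1 x (hzJ x hx)).2
  have hc : J.Countable := ((hseg z).union (countable_singleton z)).mono hsub
  rw [← Cardinal.le_aleph0_iff_set_countable, hJ] at hc
  exact absurd hc (not_le.2 (Cardinal.aleph0_lt_aleph_one))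

end Pool.Agent.Helper50.NW
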